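import Mathlib
import Pool.Agent.Q223.VF.Poly2
import Pool.Agent.Q223.VF.Poly7

/-!
# MP_7ca032_co: a 7-polytope without vertex-facet assignment which is not a free join
-/

set_option autoImplicit false

namespace Pool.Agent.Results.MP_7ca032_co.NoAssignment

open Module

/-- The space `ℝⁿ`. -/
abbrev E (n : ℕ) : Type := Fin n → ℝ

/-- A convex polytope: the convex hull of a nonempty finite set. -/
def IsPolytope {n : ℕ} (P : Set (E n)) : Prop :=
  ∃ S : Set (E n), S.Finite ∧ S.Nonempty ∧ P = convexHull ℝ S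

/-- The dimension of `P`, the dimension of its affine hull. -/
noncomputable def dim {n : ℕ} (P : Set (E n)) : ℕ := finrank ℝ (vectorSpan ℝ P)

/-- `F` is a facet of `P`: a maximal proper (exposed) face. -/
def IsFacet {n : ℕ} (P F : Set (E n)) : Prop :=
  IsExposed ℝ P F ∧ F ≠ P ∧ ∀ G, IsExposed ℝ P G → F ⊆ G → G = F ∨ G = P

/-- `P` has a vertex-facet assignment: a matching, in the graph joining vertices and facets that
are not incident, which covers all vertices or all facets. -/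
def HasAssignment {n : ℕ} (P : Set (E n)) : Prop :=
  (∃ f : P.extremePoints ℝ → {F : Set (E n) // IsFacet P F}, Function.Injective f ∧
    ∀ v : P.extremePoints ℝ, (v : E n) ∉ (f v).1) ∨
  (∃ g : {F : Set (E n) // IsFacet P F} → P.extremePoints ℝ, Function.Injective g ∧
    ∀ F : {F : Set (E n) // IsFacet P F}, (g F : E n) ∉ F.1)

/-- Combinatorial equivalence: isomorphic face lattices. -/
def CombEquiv {m n : ℕ} (P : Set (E m)) (Q : Set (E n)) : Prop :=
  Nonempty ({F : Set (E m) // IsExposed ℝ P F} ≃o {F : Set (E n) // IsExposed ℝ Q F})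

/-- `Q` is a free join `Q₁ * Q₂` of two polytopes. -/
def IsFreeJoin {n : ℕ} (Q : Set (E n)) : Prop :=
  ∃ Q₁ Q₂ : Set (E n), IsPolytope Q₁ ∧ IsPolytope Q₂ ∧ dim (Q₁ ∪ Q₂) = dim Q₁ + dim Q₂ + 1 ∧
    Q = convexHull ℝ (Q₁ ∪ Q₂)

section joins

variable {n : ℕ}

theorem exists_split (A B : Submodule ℝ (E n)) (h : A ⊓ B = ⊥) (f : E n →ₗ[ℝ] ℝ) :
    ∃ g : E n →ₗ[ℝ] ℝ, (∀ x ∈ A, g x = f x) ∧ ∀ x ∈ B, g x = 0 := by
  let i : A →ₗ[ℝ] (E n ⧸ B) := B.mkQ.comp A.subtype
  have hi : LinearMap.ker i = ⊥ := by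
    rw [eq_bot_iff]
    rintro ⟨x, hx⟩ hk
    rw [LinearMap.mem_ker] at hk
    have h1 : x ∈ B := by
      rw [← B.ker_mkQ, LinearMap.mem_ker]; exact hk
    have h2 : x ∈ A ⊓ B := ⟨hx, h1⟩
    rw [h, Submodule.mem_bot] at h2
    simp [h2]
  obtain ⟨p, hp⟩ := i.exists_leftInverse_of_injective hi
  refine ⟨(f.comp A.subtype).comp (p.comp B.mkQ), fun x hx => ?_, fun x hx => ?_⟩
  · have h1 : p (i ⟨x, hx⟩) = ⟨x, hx⟩ := LinearMap.congr_fun hp ⟨x, hx⟩
    have h2 : p (B.mkQ x) = ⟨x, hx⟩ := h1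
    simp only [LinearMap.comp_apply, h2]
    rfl
  · have h1 : B.mkQ x = 0 := by rw [← LinearMap.mem_ker, B.ker_mkQ]; exact hx
    simp only [LinearMap.comp_apply, h1, map_zero]

/-- facets of a join avoiding a point of the first factor contain the second factor -/
theorem facet_join {Q₁ Q₂ : Set (E n)} (h1 : IsPolytope Q₁) (h2 : IsPolytope Q₂)
    (hd : dim (Q₁ ∪ Q₂) = dim Q₁ + dim Q₂ + 1) {F : Set (E n)}
    (hF : IsFacet (convexHull ℝ (Q₁ ∪ Q₂)) F) {y : E n} (hy : y ∈ Q₁)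
    (hyv : y ∈ (convexHull ℝ (Q₁ ∪ Q₂)).extremePoints ℝ)
    (hyF : y ∉ F) : Q₂ ⊆ F := by
  obtain ⟨S1, hS1f, hS1n, rfl⟩ := h1
  obtain ⟨S2, hS2f, hS2n, rfl⟩ := h2
  set Q₁ := convexHull ℝ S1 with hQ1
  set Q₂ := convexHull ℝ S2 with hQ2
  have hn2 : Q₂.Nonempty := hS2n.mono (subset_convexHull ℝ _)
  by_contra hnot
  obtain ⟨q2, hq2, hq2F⟩ := Set.not_subset.1 hnot
  -- linear algebra
  set V1 : Submodule ℝ (E n) := vectorSpan ℝ Q₁ with hV1
  set V2 : Submodule ℝ (E n) := vectorSpan ℝ Q₂ with hV2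
  have hspan : vectorSpan ℝ (Q₁ ∪ Q₂) ≤ V1 ⊔ V2 ⊔ Submodule.span ℝ {q2 - y} := by
    have hmem1 : ∀ x ∈ Q₁, x - y ∈ V1 ⊔ V2 ⊔ Submodule.span ℝ {q2 - y} := fun x hx =>
      Submodule.mem_sup_left (Submodule.mem_sup_left (vsub_mem_vectorSpan ℝ hx hy))
    have hmem2 : ∀ x ∈ Q₂, x - y ∈ V1 ⊔ V2 ⊔ Submodule.span ℝ {q2 - y} := fun x hx => by
      have : x - y = (x - q2) + (q2 - y) := by abel
      rw [this]
      exact Submodule.add_mem _
        (Submodule.mem_sup_left (Submodule.mem_sup_right (vsub_mem_vectorSpan ℝ hx hq2)))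
        (Submodule.mem_sup_right (Submodule.mem_span_singleton_self _))
    have hmem : ∀ x ∈ Q₁ ∪ Q₂, x - y ∈ V1 ⊔ V2 ⊔ Submodule.span ℝ {q2 - y} := by
      rintro x (hx | hx)
      · exact hmem1 x hx
      · exact hmem2 x hx
    rw [vectorSpan_def, Submodule.span_le]
    rintro _ ⟨a, ha, b, hb, rfl⟩
    show a - b ∈ V1 ⊔ V2 ⊔ Submodule.span ℝ {q2 - y}
    have : a - b = (a - y) - (b - y) := by abel
    rw [this]
    exact Submodule.sub_mem _ (hmem a ha) (hmem b hb)
  have hle1 : finrank ℝ (vectorSpan ℝ (Q₁ ∪ Q₂)) ≤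
      finrank ℝ (V1 ⊔ V2 ⊔ Submodule.span ℝ {q2 - y} : Submodule ℝ (E n)) :=
    Submodule.finrank_mono hspan
  have hsum := Submodule.finrank_sup_add_finrank_inf_eq V1 V2
  have hd' : finrank ℝ (vectorSpan ℝ (Q₁ ∪ Q₂)) = finrank ℝ V1 + finrank ℝ V2 + 1 := hd
  have hv : q2 - y ∉ V1 ⊔ V2 := by
    intro hmem
    have : V1 ⊔ V2 ⊔ Submodule.span ℝ {q2 - y} = V1 ⊔ V2 := by
      rw [sup_eq_left, Submodule.span_singleton_le_iff_mem]; exact hmem
    rw [this] at hle1
    omega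
  have hinf : V1 ⊓ V2 = ⊥ := by
    rw [Submodule.finrank_sup_span_singleton hv] at hle1
    have : finrank ℝ (V1 ⊓ V2 : Submodule ℝ (E n)) = 0 := by omega
    exact Submodule.finrank_eq_zero.1 this
  obtain ⟨g0, hg0, hgk⟩ := Submodule.exists_le_ker_of_notMem hv
  -- the face `F`
  have hyQ : y ∈ convexHull ℝ (Q₁ ∪ Q₂) := subset_convexHull ℝ _ (Or.inl hy)
  have hq2Q : q2 ∈ convexHull ℝ (Q₁ ∪ Q₂) := subset_convexHull ℝ _ (Or.inr hq2)
  have hQeq : convexHull ℝ (Q₁ ∪ Q₂) = convexHull ℝ (S1 ∪ S2) := by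
    apply Set.Subset.antisymm
    · apply convexHull_min _ (convex_convexHull ℝ _)
      exact Set.union_subset (convexHull_mono Set.subset_union_left)
        (convexHull_mono Set.subset_union_right)
    · apply convexHull_mono
      exact Set.union_subset_union (subset_convexHull ℝ _) (subset_convexHull ℝ _)
  have hFne : F.Nonempty := by
    by_contra hne
    rw [Set.not_nonempty_iff_eq_empty] at hne
    have hexp : IsExposed ℝ (convexHull ℝ (Q₁ ∪ Q₂)) {y} := by
      rw [hQeq] at hyv ⊢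
      exact Pool.Agent.Q223.Poly.vertex_exposed (hS1f.union hS2f) (hS1n.mono Set.subset_union_left)
        hyv
    rcases hF.2.2 {y} hexp (by rw [hne]; exact Set.empty_subset _) with h | h
    · rw [hne] at h
      exact Set.singleton_ne_empty y h
    · rw [← h] at hq2Q
      have hqy : q2 = y := hq2Q
      apply hv
      rw [hqy, sub_self]
      exact Submodule.zero_mem _
  obtain ⟨l, hl⟩ := hF.1 hFne
  obtain ⟨x0, hx0⟩ := hFne
  have hmax : ∀ x ∈ convexHull ℝ (Q₁ ∪ Q₂), l x ≤ l x0 := by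
    rw [hl] at hx0; exact hx0.2
  have hFiff : ∀ x ∈ convexHull ℝ (Q₁ ∪ Q₂), (x ∈ F ↔ l x = l x0) := by
    intro x hx
    rw [hl]
    constructor
    · intro h
      exact le_antisymm (hmax x hx) (h.2 x0 (by rw [hl] at hx0; exact hx0.1))
    · intro h
      exact ⟨hx, fun z hz => by rw [h]; exact hmax z hz⟩
  have hly : l y < l x0 := lt_of_le_of_ne (hmax y hyQ) (fun h => hyF ((hFiff y hyQ).2 h))
  obtain ⟨h, hh1, hh2⟩ := exists_split V1 V2 hinf (l : E n →ₗ[ℝ] ℝ)
  set κ := (l x0 - l y - h (q2 - y)) / g0 (q2 - y) with hκ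
  set l' : E n →ₗ[ℝ] ℝ := h + κ • g0 with hl'
  have hg1 : ∀ x ∈ V1, g0 x = 0 := fun x hx => hgk (Submodule.mem_sup_left hx)
  have hg2 : ∀ x ∈ V2, g0 x = 0 := fun x hx => hgk (Submodule.mem_sup_right hx)
  have hv' : l' (q2 - y) = l x0 - l y := by
    show h (q2 - y) + κ * g0 (q2 - y) = _
    rw [hκ, div_mul_cancel₀ _ hg0]; ring
  have hQ1' : ∀ x ∈ Q₁, l' x = l' y + (l x - l y) := by
    intro x hx
    have hm : x - y ∈ V1 := vsub_mem_vectorSpan ℝ hx hy
    have h3 : l' (x - y) = l (x - y) := by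
      show h (x - y) + κ * g0 (x - y) = _
      rw [hg1 _ hm, hh1 _ hm, mul_zero, add_zero]; rfl
    rw [map_sub, map_sub] at h3
    linarith
  have hQ2' : ∀ x ∈ Q₂, l' x = l' y + (l x0 - l y) := by
    intro x hx
    have hm : x - q2 ∈ V2 := vsub_mem_vectorSpan ℝ hx hq2
    have h3 : l' (x - q2) = 0 := by
      show h (x - q2) + κ * g0 (x - q2) = _
      rw [hg2 _ hm, hh2 _ hm, mul_zero, add_zero]
    rw [map_sub] at h3 hv'
    linarith
  set c' := l' y + (l x0 - l y) with hc'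
  have hle' : ∀ x ∈ convexHull ℝ (Q₁ ∪ Q₂), l' x ≤ c' := by
    intro x hx
    have hsub : convexHull ℝ (Q₁ ∪ Q₂) ⊆ {x | l' x ≤ c'} := by
      apply convexHull_min _ (convex_halfSpace_le l'.isLinear c')
      rintro x (hx | hx)
      · show l' x ≤ c'
        rw [hQ1' x hx, hc']
        have := hmax x (subset_convexHull ℝ _ (Or.inl hx))
        linarith
      · exact (hQ2' x hx).le
    exact hsub hx
  have hexp' : IsExposed ℝ (convexHull ℝ (Q₁ ∪ Q₂)) {x ∈ convexHull ℝ (Q₁ ∪ Q₂) | l' x = c'} := by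
    intro _
    refine ⟨LinearMap.toContinuousLinearMap l', ?_⟩
    ext x
    constructor
    · rintro ⟨hx, hx'⟩
      exact ⟨hx, fun z hz => by
        show l' z ≤ l' x
        rw [hx']; exact hle' z hz⟩
    · rintro ⟨hx, hx'⟩
      refine ⟨hx, le_antisymm (hle' x hx) ?_⟩
      rw [← hQ2' q2 hq2]
      exact hx' q2 hq2Q
  have hFsub : F ⊆ {x ∈ convexHull ℝ (Q₁ ∪ Q₂) | l' x = c'} := by
    intro x hxF
    have hxQ : x ∈ convexHull ℝ (Q₁ ∪ Q₂) := by rw [hl] at hxF; exact hxF.1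
    refine ⟨hxQ, ?_⟩
    have hlx := (hFiff x hxQ).1 hxF
    have hj : x ∈ convexJoin ℝ Q₁ Q₂ := by
      rw [← Convex.convexHull_union (convex_convexHull ℝ S1) (convex_convexHull ℝ S2) ⟨y, hy⟩ hn2]
      exact hxQ
    obtain ⟨x1, hx1, x2, hx2, a, b, ha, hb, hab, rfl⟩ := mem_convexJoin.1 hj
    have e1 := hmax x1 (subset_convexHull ℝ _ (Or.inl hx1))
    have e2 := hmax x2 (subset_convexHull ℝ _ (Or.inr hx2))
    rw [map_add, map_smul, map_smul, smul_eq_mul, smul_eq_mul] at hlx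
    have e3 : a * (l x0 - l x1) = 0 := by
      have e4 : 0 ≤ a * (l x0 - l x1) := mul_nonneg ha (sub_nonneg.2 e1)
      have e5 : 0 ≤ b * (l x0 - l x2) := mul_nonneg hb (sub_nonneg.2 e2)
      have e6 : a * (l x0 - l x1) + b * (l x0 - l x2) = 0 := by
        have : a * (l x0 - l x1) + b * (l x0 - l x2) = (a + b) * l x0 - (a * l x1 + b * l x2) := by
          ring
        rw [this, hab, hlx]; ring
      linarith
    rw [map_add, map_smul, map_smul, smul_eq_mul, smul_eq_mul, hQ1' x1 hx1, hQ2' x2 hx2, hc']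
    have : a * (l' y + (l x1 - l y)) + b * (l' y + (l x0 - l y)) =
        (a + b) * (l' y + (l x0 - l y)) - a * (l x0 - l x1) := by ring
    rw [this, hab, e3]; ring
  rcases hF.2.2 _ hexp' hFsub with h3 | h3
  · apply hq2F
    rw [← h3]
    exact ⟨hq2Q, hQ2' q2 hq2⟩
  · have : y ∈ {x ∈ convexHull ℝ (Q₁ ∪ Q₂) | l' x = c'} := by rw [h3]; exact hyQ
    have h4 : l' y = c' := this.2
    rw [hc'] at h4
    linarith

/-- in a free join, for every vertex `y` the facets avoiding `y` have a common vertex -/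
theorem join_property {Q : Set (E n)} (hQ : IsFreeJoin Q) {y : E n} (hy : y ∈ Q.extremePoints ℝ) :
    ∃ z ∈ Q.extremePoints ℝ, z ≠ y ∧ ∀ F, IsFacet Q F → y ∉ F → z ∈ F := by
  obtain ⟨Q₁, Q₂, h1, h2, hd, rfl⟩ := hQ
  -- symmetric lemma
  have key : ∀ {Q₁ Q₂ : Set (E n)}, IsPolytope Q₁ → IsPolytope Q₂ →
      dim (Q₁ ∪ Q₂) = dim Q₁ + dim Q₂ + 1 → y ∈ Q₁ →
      y ∈ (convexHull ℝ (Q₁ ∪ Q₂)).extremePoints ℝ →
      ∃ z ∈ (convexHull ℝ (Q₁ ∪ Q₂)).extremePoints ℝ, z ≠ y ∧
        ∀ F, IsFacet (convexHull ℝ (Q₁ ∪ Q₂)) F → y ∉ F → z ∈ F := by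
    intro Q₁ Q₂ h1 h2 hd hy1 hy
    have hz : ∃ z ∈ (convexHull ℝ (Q₁ ∪ Q₂)).extremePoints ℝ, z ∉ Q₁ := by
      by_contra hcon
      push Not at hcon
      obtain ⟨S1, hS1f, hS1n, hS1⟩ := id h1
      obtain ⟨S2, hS2f, hS2n, hS2⟩ := id h2
      have hQeq : convexHull ℝ (Q₁ ∪ Q₂) = convexHull ℝ (S1 ∪ S2) := by
        rw [hS1, hS2]
        apply Set.Subset.antisymm
        · apply convexHull_min _ (convex_convexHull ℝ _)
          exact Set.union_subset (convexHull_mono Set.subset_union_left)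
            (convexHull_mono Set.subset_union_right)
        · apply convexHull_mono
          exact Set.union_subset_union (subset_convexHull ℝ _) (subset_convexHull ℝ _)
      have h3 := (Pool.Agent.Q223.Poly.conf_polytope (hS1f.union hS2f)
        (hS1n.mono Set.subset_union_left)).2.2.2
      rw [← hQeq] at h3
      have hconv : Convex ℝ Q₁ := by rw [hS1]; exact convex_convexHull ℝ _
      have h4 : convexHull ℝ (Q₁ ∪ Q₂) ⊆ Q₁ := by
        rw [← h3]
        exact convexHull_min hcon hconv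
      have h5 : Q₁ ∪ Q₂ = Q₁ := by
        apply Set.Subset.antisymm
        · exact (subset_convexHull ℝ _).trans h4
        · exact Set.subset_union_left
      rw [h5] at hd
      omega
    obtain ⟨z, hz, hz1⟩ := hz
    have hz2 : z ∈ Q₂ := (extremePoints_convexHull_subset hz).resolve_left hz1
    refine ⟨z, hz, fun h => hz1 (h ▸ hy1), fun F hF hyF => ?_⟩
    exact facet_join h1 h2 hd hF hy1 hy hyF hz2
  rcases extremePoints_convexHull_subset hy with hy1 | hy2
  · exact key h1 h2 hd hy1 hy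
  · rw [Set.union_comm] at hy hd ⊢
    exact key h2 h1 (by rw [hd]; ring) hy2 hy

/-- being a polytope, for joins -/
theorem join_polytope {Q : Set (E n)} (hQ : IsFreeJoin Q) : IsPolytope Q := by
  obtain ⟨Q₁, Q₂, ⟨S1, hS1f, hS1n, hS1⟩, ⟨S2, hS2f, hS2n, hS2⟩, hd, rfl⟩ := hQ
  refine ⟨S1 ∪ S2, hS1f.union hS2f, hS1n.mono Set.subset_union_left, ?_⟩
  rw [hS1, hS2]
  apply Set.Subset.antisymm
  · apply convexHull_min _ (convex_convexHull ℝ _)
    exact Set.union_subset (convexHull_mono Set.subset_union_left)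
      (convexHull_mono Set.subset_union_right)
  · apply convexHull_mono
    exact Set.union_subset_union (subset_convexHull ℝ _) (subset_convexHull ℝ _)

/-- atoms of the face lattice -/
theorem atom_iff {m : ℕ} {P : Set (E m)} (hP : IsPolytope P) (F : Set (E m))
    (hF : IsExposed ℝ P F) :
    (F.Nonempty ∧ ∀ G, IsExposed ℝ P G → G ⊆ F → G = ∅ ∨ G = F) ↔
      ∃ v ∈ P.extremePoints ℝ, F = {v} := by
  obtain ⟨S, hSf, hSn, rfl⟩ := hP
  constructor
  · rintro ⟨hne, hmin⟩
    obtain ⟨v, hv, hvF⟩ := Pool.Agent.Q223.Poly.exists_vertex hSf hF hne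
    refine ⟨v, hv, ?_⟩
    rcases hmin {v} (Pool.Agent.Q223.Poly.vertex_exposed hSf hSn hv)
      (Set.singleton_subset_iff.2 hvF) with h | h
    · exact absurd h (Set.singleton_ne_empty v)
    · exact h.symm
  · rintro ⟨v, hv, rfl⟩
    exact ⟨Set.singleton_nonempty v, fun G _ hG => Set.subset_singleton_iff_eq.1 hG⟩

/-- the criterion -/
theorem not_freeJoin {m n : ℕ} {P : Set (E m)} {Q : Set (E n)} (hP : IsPolytope P)
    {x : E m} (hx : x ∈ P.extremePoints ℝ)
    (hcrit : ∀ v ∈ P.extremePoints ℝ, v ≠ x → ∃ F, IsFacet P F ∧ x ∉ F ∧ v ∉ F)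
    (hQ : IsFreeJoin Q) : ¬ CombEquiv P Q := by
  rintro ⟨Φ⟩
  have hQp := join_polytope hQ
  -- empty faces correspond
  have hbot : ∀ F : {F : Set (E m) // IsExposed ℝ P F}, F.1 = ∅ ↔ (Φ F).1 = ∅ := by
    intro F
    constructor
    · intro h
      have h1 : F ≤ Φ.symm ⟨∅, isExposed_empty⟩ := by
        show F.1 ⊆ _
        rw [h]; exact Set.empty_subset _
      have h2 := Φ.monotone h1
      rw [Φ.apply_symm_apply] at h2
      exact Set.subset_empty_iff.1 h2
    · intro h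
      have h1 : Φ F ≤ Φ ⟨∅, isExposed_empty⟩ := by
        show (Φ F).1 ⊆ _
        rw [h]; exact Set.empty_subset _
      have h2 := Φ.le_iff_le.1 h1
      exact Set.subset_empty_iff.1 h2
  -- vertices correspond
  have hvert : ∀ F : {F : Set (E m) // IsExposed ℝ P F},
      (∃ v ∈ P.extremePoints ℝ, F.1 = {v}) ↔ ∃ w ∈ Q.extremePoints ℝ, (Φ F).1 = {w} := by
    intro F
    rw [← atom_iff hP F.1 F.2, ← atom_iff hQp (Φ F).1 (Φ F).2]
    constructor
    · rintro ⟨hne, hmin⟩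
      refine ⟨?_, fun G hG hGF => ?_⟩
      · rw [Set.nonempty_iff_ne_empty] at hne ⊢
        exact fun h => hne ((hbot F).2 h)
      · have h1 : Φ.symm ⟨G, hG⟩ ≤ F := by
          rw [← Φ.le_iff_le, Φ.apply_symm_apply]; exact hGF
        rcases hmin _ (Φ.symm ⟨G, hG⟩).2 h1 with h | h
        · left
          have := (hbot _).1 h
          rwa [Φ.apply_symm_apply] at this
        · right
          have h2 : Φ.symm ⟨G, hG⟩ = F := Subtype.ext h
          rw [← h2, Φ.apply_symm_apply]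
    · rintro ⟨hne, hmin⟩
      refine ⟨?_, fun G hG hGF => ?_⟩
      · rw [Set.nonempty_iff_ne_empty] at hne ⊢
        exact fun h => hne ((hbot F).1 h)
      · have h1 : Φ ⟨G, hG⟩ ≤ Φ F := Φ.le_iff_le.2 hGF
        rcases hmin _ (Φ ⟨G, hG⟩).2 h1 with h | h
        · left; exact (hbot ⟨G, hG⟩).2 h
        · right
          have h2 : Φ ⟨G, hG⟩ = Φ F := Subtype.ext h
          exact congrArg Subtype.val (Φ.injective h2)
  -- facets correspond
  have htop : (Φ ⟨P, IsExposed.refl P⟩).1 = Q := by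
    apply Set.Subset.antisymm (Φ _).2.subset
    have h1 : Φ.symm ⟨Q, IsExposed.refl Q⟩ ≤ ⟨P, IsExposed.refl P⟩ :=
      (Φ.symm ⟨Q, IsExposed.refl Q⟩).2.subset
    have h2 := Φ.monotone h1
    rw [Φ.apply_symm_apply] at h2
    exact h2
  have hfac : ∀ F : {F : Set (E m) // IsExposed ℝ P F}, IsFacet P F.1 → IsFacet Q (Φ F).1 := by
    intro F hF
    refine ⟨(Φ F).2, fun h => ?_, fun G hG hFG => ?_⟩
    · apply hF.2.1
      have h1 : Φ F = Φ ⟨P, IsExposed.refl P⟩ := Subtype.ext (h.trans htop.symm)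
      exact congrArg Subtype.val (Φ.injective h1)
    · have h1 : F ≤ Φ.symm ⟨G, hG⟩ := by
        rw [← Φ.le_iff_le, Φ.apply_symm_apply]; exact hFG
      rcases hF.2.2 _ (Φ.symm ⟨G, hG⟩).2 h1 with h | h
      · left
        have h2 : Φ.symm ⟨G, hG⟩ = F := Subtype.ext h
        rw [← h2, Φ.apply_symm_apply]
      · right
        have h2 : Φ.symm ⟨G, hG⟩ = ⟨P, IsExposed.refl P⟩ := Subtype.ext h
        have h3 := congrArg Φ h2
        rw [Φ.apply_symm_apply] at h3
        rw [← htop, ← h3]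
  obtain ⟨S, hSf, hSn, hS⟩ := id hP
  have hexpv : ∀ v ∈ P.extremePoints ℝ, IsExposed ℝ P {v} := by
    intro v hv
    rw [hS] at hv ⊢
    exact Pool.Agent.Q223.Poly.vertex_exposed hSf hSn hv
  obtain ⟨y, hy, hΦx⟩ := (hvert ⟨{x}, hexpv x hx⟩).1 ⟨x, hx, rfl⟩
  obtain ⟨z, hz, hzy, hzF⟩ := join_property hQ hy
  have hexpz : IsExposed ℝ Q {z} := by
    obtain ⟨S', hSf', hSn', hS'⟩ := id hQp
    rw [hS'] at hz ⊢
    exact Pool.Agent.Q223.Poly.vertex_exposed hSf' hSn' hz
  obtain ⟨v, hv, hΦv⟩ := (hvert (Φ.symm ⟨{z}, hexpz⟩)).2 ⟨z, hz, by rw [Φ.apply_symm_apply]⟩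
  have hvx : v ≠ x := by
    rintro rfl
    apply hzy
    have h1 : Φ.symm ⟨{z}, hexpz⟩ = ⟨{v}, hexpv v hx⟩ := Subtype.ext hΦv
    have h2 : (⟨{z}, hexpz⟩ : {F : Set (E n) // IsExposed ℝ Q F}) = Φ ⟨{v}, hexpv v hx⟩ := by
      rw [← h1, Φ.apply_symm_apply]
    have h3 : ({z} : Set (E n)) = {y} := by rw [← hΦx, ← h2]
    exact Set.singleton_injective h3
  obtain ⟨F, hF, hxF, hvF⟩ := hcrit v hv hvx
  have h1 := hzF _ (hfac ⟨F, hF.1⟩ hF) (fun hyF => hxF ?_)
  · apply hvF
    have h2 : (⟨{z}, hexpz⟩ : {F : Set (E n) // IsExposed ℝ Q F}) ≤ Φ ⟨F, hF.1⟩ :=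
      Set.singleton_subset_iff.2 h1
    have h3 : Φ.symm ⟨{z}, hexpz⟩ ≤ ⟨F, hF.1⟩ := by
      rw [← Φ.le_iff_le, Φ.apply_symm_apply]; exact h2
    have h4 : (Φ.symm ⟨{z}, hexpz⟩).1 ⊆ F := h3
    rw [hΦv] at h4
    exact h4 rfl
  · have h2 : Φ ⟨{x}, hexpv x hx⟩ ≤ Φ ⟨F, hF.1⟩ := by
      show (Φ _).1 ⊆ _
      rw [hΦx]; exact Set.singleton_subset_iff.2 hyF
    have h3 := Φ.le_iff_le.1 h2
    exact h3 rfl

end joins

section poly

open Pool.Agent.Q223.VF Filter Topology

/-- linear parts as linear maps -/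
noncomputable def linM (i : Idx) : E 7 →ₗ[ℝ] ℝ := (lin_isLinear i).mk' (lin i)

theorem linM_apply (i : Idx) (z : E 7) : linM i z = lin i z := rfl

/-- the faces given by the inequalities -/
def Fi (i : Idx) : Set (E 7) := {z ∈ K | lin i z = cst i}

/-- an interior point -/
noncomputable def z0 : E 7 := ![1 / 4, 1, 0, 0, 0, 0, 1 / 2]

theorem z0_lt (i : Idx) : lin i z0 < cst i := by
  have e0 : z0 0 = 1 / 4 := rfl
  have e1 : z0 1 = 1 := rfl
  have e2 : z0 2 = 0 := rfl
  have e3 : z0 3 = 0 := rfl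
  have e4 : z0 4 = 0 := rfl
  have e5 : z0 5 = 0 := rfl
  have e6 : z0 6 = 1 / 2 := rfl
  cases i with
  | L i =>
    simp only [lin, cst, e0, e1, e6]
    nlinarith [sq_nonneg ((i : ℤ) : ℝ)]
  | U => simp only [lin, cst, e0, e1, e6]; norm_num
  | T b => simp only [lin, cst, e2, e6]; norm_num
  | V e => simp only [lin, cst, e3, e4, e5, e6]; norm_num
  | L' b => cases b <;> simp [lin, cst, e0, e1, e6] <;> norm_num
  | T' b => simp only [lin, cst, e0, e1, e2, e6]; norm_num
  | V' e => simp only [lin, cst, e0, e1, e3, e4, e5, e6]; norm_num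

theorem z0_mem : z0 ∈ K := mem_K fun i => (z0_lt i).le

theorem Fi_ne (i : Idx) : Fi i ≠ K := by
  intro h
  have : z0 ∈ Fi i := by rw [h]; exact z0_mem
  exact (z0_lt i).ne this.2

/-- exposed faces given by functionals -/
theorem exposed_of_le {P : Set (E 7)} (l : E 7 →ₗ[ℝ] ℝ) (c : ℝ) (h : ∀ z ∈ P, l z ≤ c) {w : E 7}
    (hw : w ∈ P) (hwc : l w = c) : IsExposed ℝ P {z ∈ P | l z = c} := by
  intro _
  refine ⟨LinearMap.toContinuousLinearMap l, ?_⟩
  ext x
  constructor
  · rintro ⟨hx, hx'⟩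
    exact ⟨hx, fun z hz => by
      show l z ≤ l x
      rw [hx']; exact h z hz⟩
  · rintro ⟨hx, hx'⟩
    refine ⟨hx, le_antisymm (h x hx) ?_⟩
    rw [← hwc]
    exact hx' w hw

theorem Fi_exposed (i : Idx) {p : Pt} (hp : lin i (pt p) = cst i) : IsExposed ℝ K (Fi i) :=
  exposed_of_le (linM i) (cst i) (fun _ hz => K_le hz i) (pt_mem p) hp

/-- every proper nonempty exposed face lies in one of the faces `Fi i` -/
theorem sub_Fi {G : Set (E 7)} (hG : IsExposed ℝ K G) (hne : G.Nonempty) (hGK : G ≠ K) :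
    ∃ i, G ⊆ Fi i := by
  classical
  by_contra hcon
  push Not at hcon
  have hGsub : G ⊆ K := hG.subset
  have h1 : ∀ i, ∃ z ∈ G, lin i z < cst i := by
    intro i
    obtain ⟨z, hz, hz'⟩ := Set.not_subset.1 (hcon i)
    refine ⟨z, hz, lt_of_le_of_ne (K_le (hGsub hz) i) (fun h => hz' ⟨hGsub hz, h⟩)⟩
  choose z hz hzlt using h1
  have hGc : Convex ℝ G := hG.convex K_convex
  have hcard : (Fintype.card Idx : ℝ) ≠ 0 := by
    rw [← Nat.card_eq_fintype_card, card_Idx]; norm_num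
  set w : E 7 := ∑ i, (1 / (Fintype.card Idx : ℝ)) • z i with hw
  have hwG : w ∈ G := by
    refine hGc.sum_mem (fun i _ => by positivity) ?_ (fun i _ => hz i)
    rw [Finset.sum_const, Finset.card_univ, nsmul_eq_mul]
    field_simp
  have hwlt : ∀ j, lin j w < cst j := by
    intro j
    have h2 : lin j w = ∑ i, (1 / (Fintype.card Idx : ℝ)) * lin j (z i) := by
      rw [← linM_apply, hw, map_sum]
      exact Finset.sum_congr rfl fun i _ => by rw [map_smul, smul_eq_mul, linM_apply]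
    have h3 : cst j = ∑ i : Idx, (1 / (Fintype.card Idx : ℝ)) * cst j := by
      rw [Finset.sum_const, Finset.card_univ, nsmul_eq_mul]
      field_simp
    rw [h2, h3]
    apply Finset.sum_lt_sum
    · intro i _
      exact mul_le_mul_of_nonneg_left (K_le (hGsub (hz i)) j) (by positivity)
    · exact ⟨j, Finset.mem_univ j, mul_lt_mul_of_pos_left (hzlt j) (by positivity)⟩
  obtain ⟨l, hl⟩ := hG hne
  have hwmax : ∀ y ∈ K, l y ≤ l w := by
    rw [hl] at hwG; exact hwG.2
  apply hGK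
  apply Set.Subset.antisymm hGsub
  intro y hy
  rw [hl]
  -- a point beyond `w` on the line from `y`
  have hlim : ∀ᶠ ε in 𝓝[>] (0 : ℝ), ∀ i, lin i (w + ε • (w - y)) < cst i := by
    refine Filter.eventually_all.2 fun i => ?_
    have h1 : Continuous (fun ε : ℝ => linM i (w + ε • (w - y))) := by
      have : (fun ε : ℝ => linM i (w + ε • (w - y))) = fun ε => linM i w + ε * linM i (w - y) := by
        ext ε; rw [map_add, map_smul, smul_eq_mul]
      rw [this]; fun_prop
    have h2 : ∀ᶠ ε in 𝓝 (0 : ℝ), linM i (w + ε • (w - y)) < cst i :=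
      h1.continuousAt.eventually_lt continuousAt_const (by simpa [linM_apply] using hwlt i)
    exact h2.filter_mono nhdsWithin_le_nhds
  obtain ⟨ε, hε1, hε⟩ := (hlim.and self_mem_nhdsWithin).exists
  have hε : 0 < ε := hε
  have h4 := hwmax _ (mem_K fun i => (hε1 i).le)
  rw [map_add, map_smul, map_sub, smul_eq_mul] at h4
  have h5 : l w ≤ l y := by
    by_contra hcon'
    push Not at hcon'
    have := mul_pos hε (sub_pos.2 hcon')
    linarith
  exact ⟨hy, fun x hx => (hwmax x hx).trans h5⟩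

/-- facets are among the faces `Fi i` -/
theorem facet_eq {F : Set (E 7)} (hF : IsFacet K F) : ∃ i, F = Fi i := by
  have hT : IsExposed ℝ K (Fi (.T true)) :=
    Fi_exposed (.T true) (p := .P ⟨0, by decide⟩ true) (by simp [lin, cst])
  have hTne : (Fi (.T true)).Nonempty :=
    ⟨pt (.P ⟨0, by decide⟩ true), pt_mem _, by simp [lin, cst]⟩
  have hne : F.Nonempty := by
    by_contra hne
    rw [Set.not_nonempty_iff_eq_empty] at hne
    rcases hF.2.2 _ hT (by rw [hne]; exact Set.empty_subset _) with h | h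
    · rw [h, hne] at hTne
      exact Set.not_nonempty_empty hTne
    · exact Fi_ne _ h
  obtain ⟨i, hi⟩ := sub_Fi hF.1 hne hF.2.1
  obtain ⟨x, hx⟩ := hne
  have hxi := hi hx
  have hexp : IsExposed ℝ K (Fi i) :=
    exposed_of_le (linM i) (cst i) (fun _ hz => K_le hz i) hxi.1 hxi.2
  rcases hF.2.2 _ hexp hi with h | h
  · exact ⟨i, h.symm⟩
  · exact absurd h (Fi_ne i)

/-- a sufficient condition to be a facet -/
theorem facet_of_sep (i : Idx) {p : Pt} (hp : lin i (pt p) = cst i)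
    (hsep : ∀ j, j ≠ i → ∃ q, lin i (pt q) = cst i ∧ lin j (pt q) ≠ cst j) : IsFacet K (Fi i) := by
  refine ⟨Fi_exposed i hp, Fi_ne i, fun G hG hsub => ?_⟩
  by_cases h : G = K
  · exact Or.inr h
  left
  obtain ⟨j, hj⟩ := sub_Fi hG (Set.Nonempty.mono hsub ⟨pt p, pt_mem _, hp⟩) h
  by_cases hij : j = i
  · subst hij; exact Set.Subset.antisymm hj hsub
  · obtain ⟨q, hq1, hq2⟩ := hsep j hij
    exact absurd (hj (hsub ⟨pt_mem q, hq1⟩)).2 hq2

/-- slack of the lower edges -/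
theorem lin_L_ne (i : LI) (j : PI) (b : Bool) (h1 : (j : ℤ) ≠ i) (h2 : (j : ℤ) ≠ (i : ℤ) + 1) :
    lin (.L i) (pt (.P j b)) ≠ cst (.L i) := by
  intro h
  have h3 := slack_L i j b
  rw [h, sub_self] at h3
  have h4 : (((j : ℤ) - (i : ℤ)) * ((j : ℤ) - (i : ℤ) - 1) : ℤ) = 0 := by
    have h5 : ((((j : ℤ) - (i : ℤ)) * ((j : ℤ) - (i : ℤ) - 1) : ℤ) : ℝ) = 0 := by linarith
    exact_mod_cast h5
  rcases mul_eq_zero.1 h4 with h5 | h5
  · exact h1 (by omega)
  · exact h2 (by omega)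

/-- for every lower edge there is a vertex of the polygon not on it -/
theorem exists_L (i : LI) (b : Bool) : ∃ j : PI, lin (.L i) (pt (.P j b)) ≠ cst (.L i) := by
  by_cases h : (i : ℤ) ≤ 2
  · exact ⟨⟨7, by decide⟩, lin_L_ne i _ b (by show (7 : ℤ) ≠ i; omega) (by show (7 : ℤ) ≠ i + 1; omega)⟩
  · exact ⟨⟨-6, by decide⟩, lin_L_ne i _ b (by show (-6 : ℤ) ≠ i; omega)
      (by show (-6 : ℤ) ≠ i + 1; omega)⟩

theorem facet_T (b : Bool) : IsFacet K (Fi (.T b)) := by
  have hP : ∀ j : PI, lin (.T b) (pt (.P j b)) = cst (.T b) := fun j => by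
    simp only [lin, cst, pP2, pP6, sg_mul, add_zero]
  have hQ : ∀ k b', lin (.T b) (pt (.Q k b')) = cst (.T b) := fun k b' => by
    simp only [lin, cst, pQ2, pQ6, mul_zero, zero_add]
  apply facet_of_sep (.T b) (p := .P ⟨0, by decide⟩ b) (hP _)
  intro j hj
  cases j with
  | L i =>
    obtain ⟨j, hj⟩ := exists_L i b
    exact ⟨.P j b, hP j, hj⟩
  | U =>
    refine ⟨.P ⟨0, by decide⟩ b, hP _, ?_⟩
    simp [lin, cst]
  | T b' =>
    have hb : b' ≠ b := fun h => hj (by rw [h])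
    have hb' : b' = !b := by cases b <;> cases b' <;> simp_all
    refine ⟨.P ⟨0, by decide⟩ b, hP _, ?_⟩
    rw [hb']
    simp only [lin, cst, pP2, pP6, sg_not, neg_mul, sg_mul]
    norm_num
  | V e =>
    refine ⟨.Q 0 (!(e 0)), hQ _ _, ?_⟩
    have h1 : lin (.V e) (pt (.Q 0 (!(e 0)))) = sg (e 0) * sg (!(e 0)) - 1 := by
      rw [← vQ e 0 (!(e 0))]
      simp only [lin, pQ6]
    rw [h1, sg_not, mul_neg, sg_mul]
    simp only [cst]
    norm_num
  | L' b' =>
    cases b'
    · refine ⟨.P ⟨1, by decide⟩ b, hP _, ?_⟩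
      simp [lin, cst]
    · refine ⟨.P ⟨0, by decide⟩ b, hP _, ?_⟩
      simp [lin, cst]
  | T' b' =>
    refine ⟨.P ⟨2, by decide⟩ b, hP _, ?_⟩
    simp only [lin, cst, pP0, pP1, pP2, pP6]
    cases b <;> cases b' <;> simp <;> norm_num
  | V' e =>
    refine ⟨.P ⟨2, by decide⟩ b, hP _, ?_⟩
    simp only [lin, cst, pP0, pP1, pP3, pP4, pP5, pP6]
    norm_num

theorem facet_V (e : Fin 3 → Bool) : IsFacet K (Fi (.V e)) := by
  have hP : ∀ (j : PI) b, lin (.V e) (pt (.P j b)) = cst (.V e) := fun j b => by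
    simp only [lin, cst, pP3, pP4, pP5, pP6]; ring
  have hQ : ∀ k, lin (.V e) (pt (.Q k (e k))) = cst (.V e) := fun k => by
    have h1 : lin (.V e) (pt (.Q k (e k))) = sg (e k) * sg (e k) - 1 := by
      rw [← vQ e k (e k)]
      simp only [lin, pQ6]
    rw [h1, sg_mul]
    simp only [cst]
    norm_num
  apply facet_of_sep (.V e) (p := .P ⟨0, by decide⟩ true) (hP _ _)
  intro j hj
  cases j with
  | L i =>
    obtain ⟨j, hj⟩ := exists_L i true
    exact ⟨.P j true, hP j _, hj⟩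
  | U =>
    refine ⟨.P ⟨0, by decide⟩ true, hP _ _, ?_⟩
    simp [lin, cst]
  | T b' =>
    refine ⟨.P ⟨0, by decide⟩ (!b'), hP _ _, ?_⟩
    simp only [lin, cst, pP2, pP6, sg_not, mul_neg, sg_mul]
    norm_num
  | V e' =>
    have hne : e' ≠ e := fun h => hj (by rw [h])
    obtain ⟨k, hk⟩ := Function.ne_iff.1 hne
    refine ⟨.Q k (e k), hQ k, ?_⟩
    have h1 : lin (.V e') (pt (.Q k (e k))) = sg (e' k) * sg (e k) - 1 := by
      rw [← vQ e' k (e k)]
      simp only [lin, pQ6]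
    rw [h1]
    simp only [cst]
    cases h2 : e' k <;> cases h3 : e k
    · exact absurd (h2.trans h3.symm) hk
    · simp; norm_num
    · simp; norm_num
    · exact absurd (h2.trans h3.symm) hk
  | L' b' =>
    cases b'
    · refine ⟨.P ⟨1, by decide⟩ true, hP _ _, ?_⟩
      simp [lin, cst]
    · refine ⟨.P ⟨0, by decide⟩ true, hP _ _, ?_⟩
      simp [lin, cst]
  | T' b' =>
    refine ⟨.P ⟨2, by decide⟩ true, hP _ _, ?_⟩
    simp only [lin, cst, pP0, pP1, pP2, pP6]
    cases b' <;> simp <;> norm_num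
  | V' e' =>
    refine ⟨.P ⟨2, by decide⟩ true, hP _ _, ?_⟩
    simp only [lin, cst, pP0, pP1, pP3, pP4, pP5, pP6]
    norm_num

/-- strictly exposed points are vertices -/
theorem ext_of_strict (p : Pt) (l : E 7 →ₗ[ℝ] ℝ) (h : ∀ q, q ≠ p → l (pt q) < l (pt p)) :
    pt p ∈ K.extremePoints ℝ := by
  apply exposedPoints_subset_extremePoints
  have hl' : ∀ q, l (pt q) ≤ l (pt p) := fun q => by
    by_cases hq : q = p
    · rw [hq]
    · exact (h q hq).le
  obtain ⟨h1, h2⟩ := Pool.Agent.Q223.Poly.face_eq pt l (l (pt p)) hl'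
  have h3 : {q | l (pt q) = l (pt p)} = {p} := by
    ext q
    constructor
    · intro hq
      by_contra hne
      exact (h q hne).ne hq
    · rintro rfl; rfl
  rw [h3, Set.image_singleton, convexHull_singleton] at h1
  refine ⟨pt_mem p, LinearMap.toContinuousLinearMap l, fun y hy => ⟨h2 y hy, ?_⟩⟩
  intro hy'
  have h4 : y ∈ ({pt p} : Set (E 7)) := by
    rw [← h1]
    exact ⟨hy, le_antisymm (h2 y hy) hy'⟩
  exact h4

/-- coordinate functional -/
noncomputable def co (j : Fin 7) : E 7 →ₗ[ℝ] ℝ := LinearMap.proj j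

theorem ext_P (i : PI) (b : Bool) : pt (.P i b) ∈ K.extremePoints ℝ := by
  apply ext_of_strict (.P i b) ((2 * ((i : ℤ) : ℝ)) • co 0 - co 1 + sg b • co 2 - co 6)
  intro q hq
  have hval : ∀ z : E 7, ((2 * ((i : ℤ) : ℝ)) • co 0 - co 1 + sg b • co 2 - co 6) z =
      2 * ((i : ℤ) : ℝ) * z 0 - z 1 + sg b * z 2 - z 6 := fun z => rfl
  rw [hval, hval]
  simp only [pP0, pP1, pP2, pP6, sg_mul]
  have hi2 : (0 : ℝ) ≤ ((i : ℤ) : ℝ) ^ 2 := sq_nonneg _
  cases q with
  | P j b' =>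
    simp only [pP0, pP1, pP2, pP6]
    by_cases hj : j = i
    · subst hj
      have hb : b' ≠ b := fun h => hq (by rw [h])
      have : sg b * sg b' = -1 := by
        cases b <;> cases b'
        · exact absurd rfl hb
        · simp
        · simp
        · exact absurd rfl hb
      rw [this]
      linarith
    · have h1 : (1 : ℝ) ≤ (((i : ℤ) : ℝ) - ((j : ℤ) : ℝ)) ^ 2 := by
        have h2 : (i : ℤ) - (j : ℤ) ≠ 0 := fun h => hj (Subtype.ext (by omega))
        have h3 : (1 : ℤ) ≤ ((i : ℤ) - (j : ℤ)) ^ 2 := by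
          have := Int.one_le_abs h2
          nlinarith [abs_mul_abs_self ((i : ℤ) - (j : ℤ))]
        exact_mod_cast h3
      have h4 : sg b * sg b' ≤ 1 := by cases b <;> cases b' <;> simp
      nlinarith
  | Q k b' =>
    simp only [pQ0, pQ1, pQ2, pQ6]
    nlinarith
  | X =>
    simp only [pX0, pX1, pX2, pX6]
    nlinarith [sq_nonneg (((i : ℤ) : ℝ) - 1)]

theorem ext_X : pt .X ∈ K.extremePoints ℝ := by
  apply ext_of_strict .X (co 0 - co 1)
  intro q hq
  have hval : ∀ z : E 7, (co 0 - co 1) z = z 0 - z 1 := fun z => rfl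
  rw [hval, hval]
  simp only [pX0, pX1]
  cases q with
  | P j b' =>
    simp only [pP0, pP1]
    have h2 : (0 : ℝ) ≤ ((j : ℤ) * ((j : ℤ) - 1) : ℤ) := by exact_mod_cast int_prod_nonneg _
    push_cast at h2
    nlinarith
  | Q k b' =>
    simp only [pQ0, pQ1]
    norm_num
  | X => exact absurd rfl hq

theorem ext_sub : K.extremePoints ℝ ⊆ Set.range pt := extremePoints_convexHull_subset

/-- a prism vertex lies on all the facets `V e` -/
theorem P_mem_V (i : PI) (b : Bool) (e : Fin 3 → Bool) : pt (.P i b) ∈ Fi (.V e) := by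
  refine ⟨pt_mem _, ?_⟩
  simp only [lin, cst, pP3, pP4, pP5, pP6]; ring

/-- the facets `V e` are distinct -/
theorem V_inj {e e' : Fin 3 → Bool} (h : Fi (.V e) = Fi (.V e')) : e = e' := by
  ext1 k
  by_contra hk
  have h1 : pt (.Q k (e k)) ∈ Fi (.V e) := by
    refine ⟨pt_mem _, ?_⟩
    have h1 : lin (.V e) (pt (.Q k (e k))) = sg (e k) * sg (e k) - 1 := by
      rw [← vQ e k (e k)]
      simp only [lin, pQ6]
    rw [h1, sg_mul]
    simp only [cst]
    norm_num
  rw [h] at h1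
  have h2 : lin (.V e') (pt (.Q k (e k))) = 0 := h1.2
  have h3 : lin (.V e') (pt (.Q k (e k))) = sg (e' k) * sg (e k) - 1 := by
    rw [← vQ e' k (e k)]
    simp only [lin, pQ6]
  rw [h3] at h2
  cases h4 : e' k <;> cases h5 : e k
  · exact hk (h5.trans h4.symm)
  · rw [h4, h5] at h2; simp at h2; norm_num at h2
  · rw [h4, h5] at h2; simp at h2; norm_num at h2
  · exact hk (h5.trans h4.symm)

theorem P_inj {i i' : PI} {b b' : Bool} (h : pt (.P i b) = pt (.P i' b')) : i = i' ∧ b = b' := by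
  constructor
  · have h0 := congrFun h 0
    rw [pP0, pP0] at h0
    exact Subtype.ext (by exact_mod_cast h0)
  · have h2 := congrFun h 2
    rw [pP2, pP2] at h2
    cases b <;> cases b'
    · rfl
    · simp at h2; norm_num at h2
    · simp at h2; norm_num at h2
    · rfl

theorem card_facets : Finite {F : Set (E 7) // IsFacet K F} ∧
    Nat.card {F : Set (E 7) // IsFacet K F} ≤ 35 := by
  choose f hf using fun F : {F : Set (E 7) // IsFacet K F} => facet_eq F.2
  have hinj : Function.Injective f := by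
    intro F G h
    apply Subtype.ext
    rw [hf F, hf G, h]
  refine ⟨Finite.of_injective f hinj, ?_⟩
  rw [← card_Idx]
  exact Nat.card_le_card_of_injective f hinj

theorem card_vertices : Finite (K.extremePoints ℝ) ∧ Nat.card (K.extremePoints ℝ) ≤ 35 := by
  have hfin : (K.extremePoints ℝ).Finite := (Set.finite_range pt).subset ext_sub
  refine ⟨hfin, ?_⟩
  rw [← card_Pt]
  choose f hf using fun v : K.extremePoints ℝ => ext_sub v.2
  exact Nat.card_le_card_of_injective f fun v w h => Subtype.ext (by rw [← hf v, ← hf w, h])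

theorem card36 : Nat.card ((PI × Bool) ⊕ (Fin 3 → Bool)) = 36 := by
  rw [Nat.card_eq_fintype_card]
  simp only [Fintype.card_sum, Fintype.card_prod, card_PI, Fintype.card_bool, Fintype.card_fun,
    Fintype.card_fin]
  norm_num

theorem no_assignment : ¬ HasAssignment K := by
  rintro (⟨f, hf, hfn⟩ | ⟨g, hg, hgn⟩)
  · obtain ⟨hfin, hcard⟩ := card_facets
    let F : (PI × Bool) ⊕ (Fin 3 → Bool) → {F : Set (E 7) // IsFacet K F}
      | .inl (i, b) => f ⟨pt (.P i b), ext_P i b⟩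
      | .inr e => ⟨Fi (.V e), facet_V e⟩
    have hF : Function.Injective F := by
      rintro (⟨i, b⟩ | e) (⟨i', b'⟩ | e') h
      · have h1 := congrArg Subtype.val (hf h)
        obtain ⟨h2, h3⟩ := P_inj h1
        rw [h2, h3]
      · exfalso
        have h1 : (f ⟨pt (.P i b), ext_P i b⟩).1 = Fi (.V e') := congrArg Subtype.val h
        apply hfn ⟨pt (.P i b), ext_P i b⟩
        rw [h1]
        exact P_mem_V i b e'
      · exfalso
        have h1 : (f ⟨pt (.P i' b'), ext_P i' b'⟩).1 = Fi (.V e) := (congrArg Subtype.val h).symm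
        apply hfn ⟨pt (.P i' b'), ext_P i' b'⟩
        rw [h1]
        exact P_mem_V i' b' e
      · rw [V_inj (congrArg Subtype.val h)]
    have := Nat.card_le_card_of_injective F hF
    rw [card36] at this
    omega
  · obtain ⟨hfin, hcard⟩ := card_vertices
    let F : (PI × Bool) ⊕ (Fin 3 → Bool) → K.extremePoints ℝ
      | .inl (i, b) => ⟨pt (.P i b), ext_P i b⟩
      | .inr e => g ⟨Fi (.V e), facet_V e⟩
    have hF : Function.Injective F := by
      rintro (⟨i, b⟩ | e) (⟨i', b'⟩ | e') h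
      · have h1 := congrArg Subtype.val h
        obtain ⟨h2, h3⟩ := P_inj h1
        rw [h2, h3]
      · exfalso
        have h1 : pt (.P i b) = (g ⟨Fi (.V e'), facet_V e'⟩ : E 7) := congrArg Subtype.val h
        apply hgn ⟨Fi (.V e'), facet_V e'⟩
        rw [← h1]
        exact P_mem_V i b e'
      · exfalso
        have h1 : (g ⟨Fi (.V e), facet_V e⟩ : E 7) = pt (.P i' b') := congrArg Subtype.val h
        apply hgn ⟨Fi (.V e), facet_V e⟩
        rw [h1]
        exact P_mem_V i' b' e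
      · have h1 := hg h
        rw [V_inj (congrArg Subtype.val h1)]
    have := Nat.card_le_card_of_injective F hF
    rw [card36] at this
    omega

theorem K_polytope : IsPolytope K :=
  ⟨Set.range pt, Set.finite_range pt, ⟨_, .X, rfl⟩, rfl⟩

theorem K_dim : dim K = 7 := by
  have hopen : IsOpen {z : E 7 | ∀ i, lin i z < cst i} := by
    have : {z : E 7 | ∀ i, lin i z < cst i} = ⋂ i, {z : E 7 | lin i z < cst i} := by
      ext z; simp
    rw [this]
    apply isOpen_iInter_of_finite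
    intro i
    have hc : Continuous (fun z : E 7 => lin i z) := (linM i).continuous_of_finiteDimensional
    exact isOpen_lt hc continuous_const
  have hint : (interior K).Nonempty := by
    refine ⟨z0, mem_interior.2 ⟨_, fun z hz => mem_K fun i => (hz i).le, hopen, z0_lt⟩⟩
  have h1 : affineSpan ℝ K = ⊤ := by
    unfold K at hint ⊢
    rw [interior_convexHull_nonempty_iff_affineSpan_eq_top] at hint
    rw [affineSpan_convexHull, hint]
  unfold dim
  rw [← direction_affineSpan, h1, AffineSubspace.direction_top, finrank_top]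
  simp

theorem K_crit : ∀ v ∈ K.extremePoints ℝ, v ≠ pt .X → ∃ F, IsFacet K F ∧ pt .X ∉ F ∧ v ∉ F := by
  intro v hv hvx
  obtain ⟨p, rfl⟩ := ext_sub hv
  cases p with
  | P i b =>
    refine ⟨Fi (.T (!b)), facet_T _, fun h => ?_, fun h => ?_⟩
    · have := h.2
      simp only [lin, cst, pX2, pX6] at this
      norm_num at this
    · have := h.2
      simp only [lin, cst, pP2, pP6, sg_not, neg_mul, sg_mul] at this
      norm_num at this
  | Q k b =>
    refine ⟨Fi (.V fun _ => !b), facet_V _, fun h => ?_, fun h => ?_⟩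
    · have := h.2
      simp only [lin, cst, pX3, pX4, pX5, pX6] at this
      norm_num at this
    · have h1 : lin (.V fun _ => !b) (pt (.Q k b)) = sg (!b) * sg b - 1 := by
        rw [← vQ (fun _ => !b) k b]
        simp only [lin, pQ6]
      have h2 : lin (.V fun _ => !b) (pt (.Q k b)) = 0 := h.2
      rw [h1, sg_not, neg_mul, sg_mul] at h2
      norm_num at h2
  | X => exact absurd rfl hvx

end poly

/-- There is a 7-dimensional polytope (with 35 vertices and 35 facets) which has no vertex-facet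
assignment and is not combinatorially equivalent to a free join. -/
theorem result : ∃ P : Set (E 7), IsPolytope P ∧ dim P = 7 ∧ ¬ HasAssignment P ∧
    ∀ (n : ℕ) (Q : Set (E n)), IsFreeJoin Q → ¬ CombEquiv P Q :=
  ⟨Pool.Agent.Q223.VF.K, K_polytope, K_dim, no_assignment,
    fun _ _ hQ => not_freeJoin K_polytope ext_X K_crit hQ⟩

end Pool.Agent.Results.MP_7ca032_co.NoAssignment
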